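import Pool.Agent.L7h58.BP.Stm2

set_option autoImplicit false

/-!
# Project BP, part BAD: few `n` have a 3-adic polar quadratic factor

Author: helper63.  The count of `n ≤ N`, `n = 2 mod 3`, with a relation is `≤ 27 N^(5/6)`.
-/

namespace Pool.Agent.L7h63.BP

open Finset Polynomial Pool.Agent.L7h58.BP

/-- The determinant bound. -/
lemma det_bd (B : ℤ) (m : Fin 4 → ℤ) (Y : Fin 4 → ℤ) (hB : 0 ≤ B) (hm0 : ∀ i, 0 ≤ m i)
    (hm : ∀ i, m i ≤ B) (hY : ∀ i, |Y i| ≤ 24 * B ^ 2) :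
    |(Matrix.of (fun i : Fin 4 => ![1, m i, m i ^ 2, Y i])).det| ≤ 576 * B ^ 5 := by
  rw [Matrix.det_apply]
  refine (Finset.abs_sum_le_sum_abs _ _).trans ?_
  have hterm : ∀ σ ∈ (Finset.univ : Finset (Equiv.Perm (Fin 4))),
      |Equiv.Perm.sign σ • ∏ i, (Matrix.of (fun i : Fin 4 => ![1, m i, m i ^ 2, Y i])) (σ i) i|
        ≤ 24 * B ^ 5 := by
    intro σ _
    have h1 : |Equiv.Perm.sign σ •
        ∏ i, (Matrix.of (fun i : Fin 4 => ![1, m i, m i ^ 2, Y i])) (σ i) i| =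
        |∏ i, (Matrix.of (fun i : Fin 4 => ![1, m i, m i ^ 2, Y i])) (σ i) i| := by
      rcases Int.units_eq_one_or (Equiv.Perm.sign σ) with h | h
      · rw [h, one_smul]
      · rw [h, Units.neg_smul, one_smul, abs_neg]
    rw [h1, Fin.prod_univ_four]
    simp only [Matrix.of_apply, Matrix.cons_val_zero, Matrix.cons_val_one, Matrix.cons_val]
    rw [one_mul, abs_mul, abs_mul]
    have e1 : |m (σ 1)| ≤ B := by rw [abs_of_nonneg (hm0 _)]; exact hm _
    have e2 : |m (σ 2) ^ 2| ≤ B ^ 2 := by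
      rw [abs_of_nonneg (pow_nonneg (hm0 _) 2)]
      exact pow_le_pow_left₀ (hm0 _) (hm _) 2
    calc |m (σ 1)| * |m (σ 2) ^ 2| * |Y (σ 3)| ≤ B * B ^ 2 * (24 * B ^ 2) :=
          mul_le_mul (mul_le_mul e1 e2 (abs_nonneg _) hB) (hY _) (abs_nonneg _) (by positivity)
      _ = 24 * B ^ 5 := by ring
  refine (Finset.sum_le_sum hterm).trans ?_
  rw [Finset.sum_const, Finset.card_univ, Fintype.card_perm, Fintype.card_fin]
  have : (Nat.factorial 4) = 24 := rfl
  rw [this, nsmul_eq_mul]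
  push_cast
  nlinarith [pow_nonneg hB 5]

theorem s_BAD (hS : S_SIZ) (hD : S_DDF) : S_BAD := by
  classical
  refine ⟨27, by norm_num, ?_⟩
  intro N hN
  -- the choice of r
  have hex : ∃ r : ℕ, 576 * N ^ 5 < 3 ^ (6 * r) := by
    refine ⟨576 * N ^ 5, ?_⟩
    calc 576 * N ^ 5 < 3 ^ (576 * N ^ 5) := Nat.lt_pow_self (by norm_num)
      _ ≤ 3 ^ (6 * (576 * N ^ 5)) := Nat.pow_le_pow_right (by norm_num) (by omega)
  set r := Nat.find hex with hr
  have hr1 : 576 * N ^ 5 < 3 ^ (6 * r) := Nat.find_spec hex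
  have hN5 : 1 ≤ N ^ 5 := Nat.one_le_pow _ _ hN
  have hr0 : r ≠ 0 := by
    intro h
    rw [h] at hr1
    simp at hr1
    omega
  have hr2 : 3 ^ (6 * (r - 1)) ≤ 576 * N ^ 5 := by
    have := Nat.find_min hex (m := r - 1) (by omega)
    omega
  -- the finset
  set A : Finset ℕ := (range (N + 1)).filter
    (fun n => n % 3 = 2 ∧ ∃ Y : ℤ, ¬ (3 : ℤ) ∣ Y ∧ Rel n Y) with hA
  have hcardA : Nat.card {n : ℕ // n ≤ N ∧ n % 3 = 2 ∧ ∃ Y : ℤ, ¬ (3 : ℤ) ∣ Y ∧ Rel n Y} =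
      A.card := by
    refine Nat.subtype_card A ?_
    intro n
    rw [hA, Finset.mem_filter, Finset.mem_range, Nat.lt_succ_iff]
  rw [hcardA]
  -- the fibres
  have hfib : ∀ b ∈ range (3 ^ r), (A.filter (fun n => ((n - 2) / 3) % 3 ^ r = b)).card ≤ 3 := by
    intro b _
    by_contra hcon
    push Not at hcon
    have h4 : 4 ≤ (A.filter (fun n => ((n - 2) / 3) % 3 ^ r = b)).card := hcon
    obtain ⟨s, hs, hs4⟩ := Finset.exists_subset_card_eq h4
    set g : Fin 4 → ℕ := fun i => s.orderEmbOfFin hs4 i with hg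
    have hgs : ∀ i, g i ∈ s := fun i => Finset.orderEmbOfFin_mem s hs4 i
    have hginj : Function.Injective g := (s.orderEmbOfFin hs4).injective
    have hgA : ∀ i, g i ≤ N ∧ g i % 3 = 2 ∧ (∃ Y : ℤ, ¬ (3 : ℤ) ∣ Y ∧ Rel (g i) Y) ∧
        ((g i - 2) / 3) % 3 ^ r = b := by
      intro i
      have h := hs (hgs i)
      rw [Finset.mem_filter, hA, Finset.mem_filter, Finset.mem_range, Nat.lt_succ_iff] at h
      exact ⟨h.1.1, h.1.2.1, h.1.2.2, h.2⟩
    choose Y hY3 hYR using fun i => (hgA i).2.2.1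
    set m : Fin 4 → ℕ := fun i => (g i - 2) / 3 with hm
    have hgm : ∀ i, g i = 2 + 3 * m i := by
      intro i
      have h1 := (hgA i).2.1
      simp only [hm]
      omega
    have hminj : Function.Injective m := by
      intro i j hij
      apply hginj
      rw [hgm i, hgm j, hij]
    have hmod : ∀ i j, m i ≡ m j [MOD 3 ^ r] := by
      intro i j
      have h1 := (hgA i).2.2.2
      have h2 := (hgA j).2.2.2
      unfold Nat.ModEq
      simp only [hm]
      rw [h1, h2]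
    have hdet := hD r m Y hminj hmod (fun i => ⟨hY3 i, by rw [← hgm i]; exact hYR i⟩)
    have hYbd : ∀ i, |Y i| ≤ 24 * (N : ℤ) ^ 2 := by
      intro i
      have hY0 : Y i ≠ 0 := by
        intro h
        apply hY3 i
        rw [h]
        exact dvd_zero _
      have h1 := hS (g i) (Y i) (by have := hgm i; omega) hY0 (hYR i)
      have h2 : ((g i : ℕ) : ℝ) ≤ N := by exact_mod_cast (hgA i).1
      have h3 : |(Y i : ℝ)| ≤ 24 * (N : ℝ) ^ 2 := by
        refine h1.trans ?_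
        have : ((g i : ℕ) : ℝ) ^ 2 ≤ (N : ℝ) ^ 2 := pow_le_pow_left₀ (Nat.cast_nonneg _) h2 2
        linarith
      exact_mod_cast h3
    have hbd := det_bd (N : ℤ) (fun i => (m i : ℤ)) Y (by positivity) (fun i => by positivity)
      (fun i => by
        have h1 := hgm i
        have h2 := (hgA i).1
        have : m i ≤ N := by omega
        exact_mod_cast this) hYbd
    have h5 : (3 : ℤ) ^ (6 * r) ≤ 576 * (N : ℤ) ^ 5 := hdet.trans hbd
    have h6 : 3 ^ (6 * r) ≤ 576 * N ^ 5 := by exact_mod_cast h5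
    omega
  have hcard : A.card ≤ 3 * (range (3 ^ r)).card := by
    refine Finset.card_le_mul_card_image_of_maps_to (f := fun n => ((n - 2) / 3) % 3 ^ r) ?_ 3 hfib
    intro n _
    exact Finset.mem_range.2 (Nat.mod_lt _ (by positivity))
  rw [Finset.card_range] at hcard
  -- the size
  have hNr : (0 : ℝ) ≤ (N : ℝ) := Nat.cast_nonneg _
  have hp : ((N : ℝ) ^ (5 / 6 : ℝ)) ^ 6 = (N : ℝ) ^ 5 := by
    rw [← Real.rpow_mul_natCast hNr]
    have : (5 / 6 : ℝ) * ((6 : ℕ) : ℝ) = ((5 : ℕ) : ℝ) := by norm_num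
    rw [this, Real.rpow_natCast]
  have h7 : ((3 : ℝ) ^ (r - 1)) ≤ 3 * (N : ℝ) ^ (5 / 6 : ℝ) := by
    rw [← pow_le_pow_iff_left₀ (by positivity) (by positivity) (n := 6) (by norm_num)]
    rw [mul_pow, hp, ← pow_mul]
    have h8 : (3 : ℝ) ^ (6 * (r - 1)) ≤ 576 * (N : ℝ) ^ 5 := by exact_mod_cast hr2
    rw [mul_comm (r - 1) 6]
    refine h8.trans ?_
    have : (0 : ℝ) ≤ (N : ℝ) ^ 5 := by positivity
    nlinarith
  have h9 : ((3 : ℝ) ^ r) = 3 * (3 : ℝ) ^ (r - 1) := by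
    rw [← pow_succ']
    congr 1
    omega
  calc (A.card : ℝ) ≤ ((3 * 3 ^ r : ℕ) : ℝ) := by exact_mod_cast hcard
    _ = 3 * (3 : ℝ) ^ r := by push_cast; ring
    _ = 9 * (3 : ℝ) ^ (r - 1) := by rw [h9]; ring
    _ ≤ 9 * (3 * (N : ℝ) ^ (5 / 6 : ℝ)) := by linarith
    _ = 27 * (N : ℝ) ^ (5 / 6 : ℝ) := by ring

end Pool.Agent.L7h63.BP
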